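import Pool.Agent.H62.UTO.Basic

set_option autoImplicit false

open Polynomial
open Pool.Agent.H17.UN

namespace Pool.Agent.H62.UTO

theorem D_inj {k F : Type} [Field k] [IsAlgClosed k] [CharZero k] [Field F] [Algebra k F]
    {P Q : k[X]} {s y z : F} {e r : Fin 5 → k} {ρ : k} {D : Fin 7 → PrimeDivisor (ch k s y z)}
    (hVDS : T_VDS) (h : CB P Q s y z) (hFr : Fr P Q e r ρ D) : Function.Injective D := by
  intro j j' hj
  rcases jc j with ⟨i, rfl⟩ | rfl | rfl <;> rcases jc j' with ⟨i', rfl⟩ | rfl | rfl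
  · have h1 := hFr.cmp i
    have h2 := hFr.cmp i'
    rw [← hj] at h2
    have := ((hVDS k F P Q s y z h _).1 _ _ _ _ h1 h2).1
    rw [hFr.inj this]
  · have h1 := hFr.cmp i
    rw [hj] at h1
    exact absurd hFr.pos ((hVDS k F P Q s y z h _).2.2 _ _ _ h1)
  · have h1 := hFr.cmp i
    rw [hj] at h1
    exact absurd hFr.neg ((hVDS k F P Q s y z h _).2.2 _ _ _ h1)
  · have h1 := hFr.cmp i'
    rw [← hj] at h1
    exact absurd hFr.pos ((hVDS k F P Q s y z h _).2.2 _ _ _ h1)
  · rfl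
  · have h1 := hFr.pos
    rw [hj] at h1
    have h2 := (hVDS k F P Q s y z h _).2.1 _ _ h1 hFr.neg
    exact absurd (self_eq_neg.mp h2) (inf_ne h hFr.pos)
  · have h1 := hFr.cmp i'
    rw [← hj] at h1
    exact absurd hFr.neg ((hVDS k F P Q s y z h _).2.2 _ _ _ h1)
  · have h1 := hFr.pos
    rw [← hj] at h1
    have h2 := (hVDS k F P Q s y z h _).2.1 _ _ h1 hFr.neg
    exact absurd (self_eq_neg.mp h2) (inf_ne h hFr.pos)
  · rfl

theorem pf_KER (hVCL : T_VCL) (hVUN : T_VUN) (hVDS : T_VDS) (hVEX : T_VEX) (hVEF : T_VEF)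
    (hHDV : T_HDV) (hDSE : T_DSE) : T_KER := by
  classical
  intro k F _ _ _ _ _ P Q s y z h e r ρ D D1 hFr hS f n l hf heq
  have hor0 : ∀ v : PrimeDivisor (ch k s y z), Hor v → v ≠ D1 → v.ord f = 0 := by
    intro v hv hne
    have h1 := heq v
    rw [if_neg hne, Finset.sum_eq_zero (fun j _ => if_neg (hor_ne hFr hv j))] at h1
    omega
  obtain ⟨a, b, ha, hb, hfab⟩ := (hHDV k F P Q s y z h D1 hS).2 f hf hor0
  have hl : l = 0 := by
    have h1 := heq D1
    rw [if_pos rfl, Finset.sum_eq_zero (fun j _ => if_neg (hor_ne hFr hS.1 j)), hfab,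
      ord_div _ (aeval_ne h ha) (aeval_ne h hb), hor_aeval _ h hS.1 ha,
      hor_aeval _ h hS.1 hb] at h1
    omega
  have hv0 : ∀ v : PrimeDivisor (ch k s y z), (∀ j, v ≠ D j) → v.ord f = 0 := by
    intro v hv
    have h1 := heq v
    rw [hl, Finset.sum_eq_zero (fun j _ => if_neg (hv j)), ite_self] at h1
    omega
  have hx : ∀ x : k, ∃ v : PrimeDivisor (ch k s y z), v.ord (s - algebraMap k F x) = 1 ∧
      v.ord f = 0 := by
    intro x
    by_cases hPQ : (P * Q).eval x = 0
    · obtain ⟨i, rfl⟩ := hFr.rts x hPQ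
      have h1 := hFr.cmp i
      obtain ⟨v', hv'⟩ := (hVEX k F P Q s y z h).1 (e i) (-r i) (by
        rcases h1.2 with h2 | h2
        · exact Or.inl ⟨h2.1, by rw [← h2.2.1]; ring⟩
        · exact Or.inr ⟨h2.1, by rw [← h2.2.1]; ring⟩)
      refine ⟨v', hv'.1, hv0 v' ?_⟩
      rintro j rfl
      rcases jc j with ⟨i', rfl⟩ | rfl | rfl
      · have h3 := (hVDS k F P Q s y z h _).1 _ _ _ _ hv' (hFr.cmp i')
        have h4 := hFr.inj h3.1
        subst h4
        exact cmp_ne h h1 (self_eq_neg.mp h3.2.symm)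
      · exact (hVDS k F P Q s y z h _).2.2 _ _ _ hv' hFr.pos
      · exact (hVDS k F P Q s y z h _).2.2 _ _ _ hv' hFr.neg
    · obtain ⟨v, hv⟩ := hVEF k F P Q s y z h x hPQ
      refine ⟨v, hv, hv0 v ?_⟩
      rintro j rfl
      rcases jc j with ⟨i', rfl⟩ | rfl | rfl
      · have h3 := (hFr.cmp i').1
        by_cases hxe : x = e i'
        · rw [hxe] at hPQ
          exact hPQ (cmp_root (hFr.cmp i'))
        · rw [sub_other _ h (by rw [h3]; exact one_pos) hxe] at hv
          omega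
      · have h3 := ord_s_nonneg _ h (a := x) (by rw [hv]; exact one_pos)
        rw [hFr.pos.1] at h3
        omega
      · have h3 := ord_s_nonneg _ h (a := x) (by rw [hv]; exact one_pos)
        rw [hFr.neg.1] at h3
        omega
  have hroots : a.roots = b.roots := by
    ext x
    obtain ⟨v, h1, h2⟩ := hx x
    rw [hfab, ord_div _ (aeval_ne h ha) (aeval_ne h hb), ord_count v h h1 ha,
      ord_count v h h1 hb] at h2
    have h3 : (a.roots.count x : ℤ) = b.roots.count x := by omega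
    exact_mod_cast h3
  have hc : ∃ c : k, f = algebraMap k F c := by
    refine ⟨a.leadingCoeff / b.leadingCoeff, ?_⟩
    have hne : (b.roots.map (fun a => s - algebraMap k F a)).prod ≠ 0 :=
      (prod_ord D1 h b.roots).1
    rw [hfab, aeval_prod a, aeval_prod b, hroots, mul_div_mul_right _ _ hne, map_div₀]
  refine ⟨?_, hl, hc⟩
  obtain ⟨c, hc⟩ := hc
  funext j
  have h1 := heq (D j)
  rw [hl, ite_self, hc, ord_const, Finset.sum_eq_single j] at h1
  · rw [if_pos rfl] at h1
    simpa using h1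
  · intro j' _ hne
    exact if_neg (fun h0 => hne (D_inj hVDS h hFr h0).symm)
  · intro h0
    exact absurd (Finset.mem_univ _) h0

end Pool.Agent.H62.UTO
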