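import Pool.Agent.H62.UTO.KER

set_option autoImplicit false

open Polynomial
open Pool.Agent.H17.UN

namespace Pool.Agent.H62.UTO

section

variable {k F : Type} [Field k] [Field F] [Algebra k F] {s y z : F}

open Classical in
/-- The function `q` is the divisor `div f + ∑ n_j D_j + l D1`. -/
def Good (D : Fin 7 → PrimeDivisor (ch k s y z)) (D1 : PrimeDivisor (ch k s y z))
    (q : PrimeDivisor (ch k s y z) → ℤ) (l : ℤ) : Prop :=
  ∃ (f : F) (n : Fin 7 → ℤ), f ≠ 0 ∧ ∀ v' : PrimeDivisor (ch k s y z), q v' =
    v'.ord f + (∑ j, if v' = D j then n j else 0) + (if v' = D1 then l else 0)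

variable {D : Fin 7 → PrimeDivisor (ch k s y z)} {D1 : PrimeDivisor (ch k s y z)}

theorem good_add {q q' : PrimeDivisor (ch k s y z) → ℤ} {l l' : ℤ} (h : Good D D1 q l)
    (h' : Good D D1 q' l') : Good D D1 (fun v => q v + q' v) (l + l') := by
  classical
  obtain ⟨f, n, hf, h1⟩ := h
  obtain ⟨f', n', hf', h1'⟩ := h'
  refine ⟨f * f', n + n', mul_ne_zero hf hf', fun v => ?_⟩
  simp only [h1 v, h1' v, v.ord_mul f f' hf hf', Pi.add_apply]
  have e1 : (∑ j, if v = D j then n j + n' j else 0) =
      (∑ j, if v = D j then n j else 0) + ∑ j, if v = D j then n' j else 0 := by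
    rw [← Finset.sum_add_distrib]
    apply Finset.sum_congr rfl
    intro j _
    split_ifs <;> simp
  rw [e1]
  split_ifs <;> ring

theorem good_smul {q : PrimeDivisor (ch k s y z) → ℤ} {l : ℤ} (h : Good D D1 q l) (m : ℤ) :
    Good D D1 (fun v => m * q v) (m * l) := by
  classical
  obtain ⟨f, n, hf, h1⟩ := h
  refine ⟨f ^ m, fun j => m * n j, zpow_ne_zero m hf, fun v => ?_⟩
  simp only [h1 v, ord_zpow v hf]
  have e1 : (∑ j, if v = D j then m * n j else 0) = m * ∑ j, if v = D j then n j else 0 := by
    rw [Finset.mul_sum]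
    apply Finset.sum_congr rfl
    intro j _
    split_ifs <;> simp
  rw [e1]
  split_ifs <;> ring

theorem good_div {f : F} (hf : f ≠ 0) : Good D D1 (fun v => v.ord f) 0 :=
  ⟨f, 0, hf, fun v => by simp⟩

theorem good_zero : Good D D1 (fun _ => 0) 0 :=
  ⟨1, 0, one_ne_zero, fun v => by simp [ord_one]⟩

open Classical in
theorem good_D (j : Fin 7) : Good D D1 (fun v => if v = D j then 1 else 0) 0 := by
  refine ⟨1, Pi.single j 1, one_ne_zero, fun v => ?_⟩
  rw [ord_one, ite_self, Finset.sum_eq_single j]
  · simp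
  · intro j' _ hne
    rw [Pi.single_eq_of_ne hne, ite_self]
  · intro h0
    exact absurd (Finset.mem_univ _) h0

open Classical in
theorem good_D1 : Good D D1 (fun v => if v = D1 then 1 else 0) 1 :=
  ⟨1, 0, one_ne_zero, fun v => by simp [ord_one]⟩

theorem good_congr {q q' : PrimeDivisor (ch k s y z) → ℤ} {l : ℤ} (h : Good D D1 q l)
    (e : ∀ v, q' v = q v) : Good D D1 q' l := by
  obtain ⟨f, n, hf, h1⟩ := h
  exact ⟨f, n, hf, fun v => by rw [e v, h1 v]⟩

open Classical in
theorem good_sum (S : Finset (PrimeDivisor (ch k s y z))) (c : PrimeDivisor (ch k s y z) → ℤ)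
    (h : ∀ w ∈ S, Good D D1 (fun v => if v = w then 1 else 0) 0) :
    Good D D1 (fun v => ∑ w ∈ S, c w * (if v = w then 1 else 0)) 0 := by
  induction S using Finset.induction_on with
  | empty => exact good_congr good_zero (fun v => by simp)
  | insert w S hw ih =>
    have h1 := good_smul (h w (Finset.mem_insert_self w S)) (c w)
    have h2 := ih (fun w' hw' => h w' (Finset.mem_insert_of_mem hw'))
    have h3 := good_add h1 h2
    rw [mul_zero, add_zero] at h3
    exact good_congr h3 (fun v => by rw [Finset.sum_insert hw])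

end

section

variable {k F : Type} [Field k] [IsAlgClosed k] [CharZero k] [Field F] [Algebra k F]
  {P Q : k[X]} {s y z : F} {e r : Fin 5 → k} {ρ : k} {D : Fin 7 → PrimeDivisor (ch k s y z)}
  {D1 : PrimeDivisor (ch k s y z)}

theorem inf_cases (hVUN : T_VUN) (h : CB P Q s y z) (hFr : Fr P Q e r ρ D)
    {v : PrimeDivisor (ch k s y z)} {b : k} (hv : CmpInf Q b v) : v = D 5 ∨ v = D 6 := by
  have h1 : b ^ 2 = ρ ^ 2 := by rw [hv.2.1, hFr.pos.2.1]
  rcases sq_eq_sq_iff_eq_or_eq_neg.mp h1 with h2 | h2
  · left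
    rw [h2] at hv
    exact (hVUN k F P Q s y z h v (D 5)).2 _ hv hFr.pos
  · right
    rw [h2] at hv
    exact (hVUN k F P Q s y z h v (D 6)).2 _ hv hFr.neg

theorem neg_cases (hVCL : T_VCL) (hVUN : T_VUN) (h : CB P Q s y z) (hFr : Fr P Q e r ρ D)
    {v : PrimeDivisor (ch k s y z)} (hv : v.ord s < 0) : v = D 5 ∨ v = D 6 := by
  rcases hVCL k F P Q s y z h v with h1 | ⟨a, -, h1, -⟩ | ⟨a, b, h1⟩ | ⟨b, h1⟩
  · rw [hor_s _ h1] at hv
    omega
  · have := ord_s_nonneg v h (a := a) (by rw [h1]; exact one_pos)
    omega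
  · have := ord_s_nonneg v h (a := a) (by rw [h1.1]; exact one_pos)
    omega
  · exact inf_cases hVUN h hFr h1

open Classical in
theorem vert_good (hVCL : T_VCL) (hVUN : T_VUN) (hVDS : T_VDS) (hDSE : T_DSE)
    (h : CB P Q s y z) (hFr : Fr P Q e r ρ D) {v : PrimeDivisor (ch k s y z)} (hv : ¬ Hor v) :
    Good D D1 (fun v' => if v' = v then 1 else 0) 0 := by
  have hD56 : D 5 ≠ D 6 := fun h0 => by
    have := D_inj hVDS h hFr h0
    exact absurd this (by decide)
  rcases hVCL k F P Q s y z h v with h1 | ⟨a, hPQ, h1, huniq⟩ | ⟨a, b, h1⟩ | ⟨b, h1⟩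
  · exact absurd h1 hv
  · have h2 := good_add (good_add (good_div (D := D) (D1 := D1) (sub_ne h a)) (good_D 5))
      (good_D 6)
    rw [add_zero, add_zero] at h2
    refine good_congr h2 (fun v' => ?_)
    have hvs := ord_s_nonneg v h (a := a) (by rw [h1]; exact one_pos)
    by_cases hs : v'.ord s < 0
    · have h3 := neg_cases hVCL hVUN h hFr hs
      have h4 : v' ≠ v := by
        rintro rfl
        omega
      rw [if_neg h4, sub_neg v' h hs a]
      rcases h3 with rfl | rfl
      · rw [if_pos rfl, if_neg hD56, hFr.pos.1]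
        rfl
      · rw [if_pos rfl, if_neg hD56.symm, hFr.neg.1]
        rfl
    · have h5 : v' ≠ D 5 := by
        rintro rfl
        rw [hFr.pos.1] at hs
        omega
      have h6 : v' ≠ D 6 := by
        rintro rfl
        rw [hFr.neg.1] at hs
        omega
      rw [if_neg h5, if_neg h6, add_zero, add_zero]
      by_cases h7 : 0 < v'.ord (s - algebraMap k F a)
      · have h8 := huniq v' h7
        rw [if_pos h8, h8, h1]
      · have h8 : v' ≠ v := by
          rintro rfl
          rw [h1] at h7
          omega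
        have h9 : 0 ≤ v'.ord (s - algebraMap k F a) := by
          by_cases ha : a = 0
          · rw [ha, map_zero, sub_zero]
            omega
          have hane : algebraMap k F (-a) ≠ 0 := by
            rw [Ne, map_eq_zero, neg_eq_zero]
            exact ha
          have h10 := v'.ord_add s (algebraMap k F (-a)) (s_ne h) hane (by
            rw [map_neg, ← sub_eq_add_neg]
            exact sub_ne h a)
          rw [ord_const, map_neg, ← sub_eq_add_neg] at h10
          omega
        rw [if_neg h8]
        omega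
  · obtain ⟨i, rfl⟩ := hFr.rts a (cmp_root h1)
    have h2 := hFr.cmp i
    have h3 : b ^ 2 = r i ^ 2 := by
      rcases h1.2 with h4 | h4 <;> rcases h2.2 with h5 | h5
      · rw [h4.2.1, h5.2.1]
      · exact absurd (cop h h5.1 h4.1) id
      · exact absurd (cop h h4.1 h5.1) id
      · rw [h4.2.1, h5.2.1]
    rcases sq_eq_sq_iff_eq_or_eq_neg.mp h3 with h4 | h4
    · rw [h4] at h1
      have h5 := (hVUN k F P Q s y z h v (D (Fin.castAdd 2 i))).1 _ _ h1 h2
      rw [h5]
      exact good_D _
    · rw [h4] at h1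
      have h5 := hDSE k F P Q s y z h e r ρ D hFr i v h1
      have h6 := good_add (good_add (good_add (good_div (D := D) (D1 := D1) (sub_ne h (e i)))
        (good_smul (good_D (Fin.castAdd 2 i)) (-1))) (good_D 5)) (good_D 6)
      rw [mul_zero, add_zero, add_zero, add_zero] at h6
      refine good_congr h6 (fun v' => ?_)
      rw [h5 v']
      ring
  · rcases inf_cases hVUN h hFr h1 with rfl | rfl
    · exact good_D _
    · exact good_D _

end

theorem pf_SUR (hVCL : T_VCL) (hVUN : T_VUN) (hVDS : T_VDS) (hVEX : T_VEX) (hFSU : T_FSU)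
    (hHDV : T_HDV) (hDSE : T_DSE) : T_SUR := by
  classical
  intro k F _ _ _ _ _ P Q s y z h e r ρ D D1 hFr hS v
  have fin : ∀ (l : ℤ), (Sect v → l = 1) → Good D D1 (fun v' => if v' = v then 1 else 0) l →
      ∃ (f : F) (n : Fin 7 → ℤ) (l : ℤ), f ≠ 0 ∧ (Sect v → l = 1) ∧
        ∀ v' : PrimeDivisor (ch k s y z), (if v' = v then 1 else 0) =
        v'.ord f + (∑ j, if v' = D j then n j else 0) + (if v' = D1 then l else 0) := by
    rintro l hl ⟨f, n, hf, h1⟩
    exact ⟨f, n, l, hf, hl, h1⟩
  by_cases hv : Hor v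
  · by_cases hD1 : v = D1
    · refine fin 1 (fun _ => rfl) ?_
      rw [hD1]
      exact good_D1
    · obtain ⟨f0, d, hf0, hd, h1, h2⟩ := (hHDV k F P Q s y z h D1 hS).1 v hv
      obtain ⟨h1, h3⟩ := h1 hD1
      refine fin d hd ?_
      have hfin := hFSU k F P Q s y z h f0 hf0
      let S : Finset (PrimeDivisor (ch k s y z)) := hfin.toFinset.filter (fun w => ¬ Hor w)
      have hS1 : ∀ w, w ∈ S ↔ w.ord f0 ≠ 0 ∧ ¬ Hor w := by
        intro w
        simp [S]
      have h4 := good_sum (D := D) (D1 := D1) S (fun w => w.ord f0) (fun w hw =>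
        vert_good hVCL hVUN hVDS hDSE h hFr ((hS1 w).mp hw).2)
      have h5 := good_add (good_add (good_div (D := D) (D1 := D1) hf0)
        (good_smul good_D1 d)) (good_smul h4 (-1))
      rw [mul_one, mul_zero, add_zero, zero_add] at h5
      refine good_congr h5 (fun v' => ?_)
      have h6 : ∑ w ∈ S, w.ord f0 * (if v' = w then 1 else 0) =
          if Hor v' then 0 else v'.ord f0 := by
        by_cases hm : v' ∈ S
        · rw [Finset.sum_eq_single v', if_pos rfl, mul_one, if_neg ((hS1 v').mp hm).2]
          · intro w _ hne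
            rw [if_neg (fun h0 => hne h0.symm), mul_zero]
          · intro h0
            exact absurd hm h0
        · rw [Finset.sum_eq_zero]
          · by_cases hh : Hor v'
            · rw [if_pos hh]
            · rw [if_neg hh]
              by_contra h0
              exact hm ((hS1 v').mpr ⟨fun h7 => h0 h7.symm, hh⟩)
          · intro w hw
            rw [if_neg, mul_zero]
            rintro rfl
            exact hm hw
      rw [h6]
      by_cases hh : Hor v'
      · rw [if_pos hh]
        by_cases h7 : v' = v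
        · rw [if_pos h7, h7, h1, if_neg hD1]
          ring
        · rw [if_neg h7]
          by_cases h8 : v' = D1
          · rw [if_pos h8, h8, h3]
            ring
          · rw [if_neg h8, h2 v' hh h7 h8]
            ring
      · rw [if_neg hh]
        have h7 : v' ≠ v := by
          rintro rfl
          exact hh hv
        have h8 : v' ≠ D1 := by
          rintro rfl
          exact hh hS.1
        rw [if_neg h7, if_neg h8]
        ring
  · refine fin 0 (fun h0 => absurd h0.1 hv) (vert_good hVCL hVUN hVDS hDSE h hFr hv)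

end Pool.Agent.H62.UTO
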