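import Pool.Agent.H17.UN.Tow

set_option autoImplicit false

open Polynomial
open Pool.Agent.H17.UN

namespace Pool.Agent.H62.UTO

section

variable {K L : Type} [Field K] [Field L] [Algebra K L] {F Kb : IntermediateField K L} {r : ℕ}

theorem mon_one (t : Fin r → Lˣ) : mon (F := F) (Kb := Kb) t 1 0 = 1 := by
  simp [mon]

theorem mon_mul (t : Fin r → Lˣ) (f f' : (Fb F Kb)ˣ) (n n' : Fin r → ℤ) :
    mon t (f * f') (n + n') = mon t f n * mon t f' n' := by
  simp only [mon, map_mul, Pi.add_apply, zpow_add, Finset.prod_mul_distrib]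
  exact mul_mul_mul_comm _ _ _ _

/-- The homomorphism `(f, n) ↦ f ∏ t_j ^ n_j`. -/
noncomputable def Psi (t : Fin r → Lˣ) : (Fb F Kb)ˣ × Multiplicative (Fin r → ℤ) →* Lˣ where
  toFun p := mon t p.1 p.2.toAdd
  map_one' := mon_one t
  map_mul' p p' := mon_mul t p.1 p'.1 p.2.toAdd p'.2.toAdd

variable {m : ℕ} {A : Fin m → Subalgebra Kb (Fb F Kb)}

theorem dn_mul (D : Fin r → PrimeDivisor A) (f f' : (Fb F Kb)ˣ) (n n' : Fin r → ℤ)
    (v : PrimeDivisor A) : dn D (f * f') (n + n') v = dn D f n v + dn D f' n' v := by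
  classical
  have h1 : v.ord ((f * f' : (Fb F Kb)ˣ) : Fb F Kb) = v.ord (f : Fb F Kb) + v.ord (f' : Fb F Kb) := by
    rw [Units.val_mul]
    exact v.ord_mul _ _ f.ne_zero f'.ne_zero
  have h2 : (∑ j, if v = D j then (n + n') j else 0) =
      (∑ j, if v = D j then n j else 0) + ∑ j, if v = D j then n' j else 0 := by
    rw [← Finset.sum_add_distrib]
    apply Finset.sum_congr rfl
    intro j _
    split_ifs <;> simp
  unfold dn
  rw [h1, h2]
  ring

theorem dn_one (D : Fin r → PrimeDivisor A) (v : PrimeDivisor A) :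
    dn D (1 : (Fb F Kb)ˣ) 0 v = 0 := by
  have h := dn_mul D (1 : (Fb F Kb)ˣ) 1 0 0 v
  rw [mul_one, add_zero] at h
  omega

theorem dn_supp (D : Fin r → PrimeDivisor A)
    (hfin : ∀ f : Fb F Kb, f ≠ 0 → {v : PrimeDivisor A | v.ord f ≠ 0}.Finite)
    (f : (Fb F Kb)ˣ) (n : Fin r → ℤ) : (Function.support (dn D f n)).Finite := by
  classical
  refine ((hfin (f : Fb F Kb) f.ne_zero).union (Set.finite_range D)).subset ?_
  intro v hv
  by_contra h0
  rw [Set.mem_union, not_or] at h0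
  apply hv
  have h1 : v.ord (f : Fb F Kb) = 0 := by
    by_contra h2
    exact h0.1 h2
  unfold dn
  rw [h1, zero_add]
  apply Finset.sum_eq_zero
  intro j _
  rw [if_neg]
  rintro rfl
  exact h0.2 ⟨j, rfl⟩

/-- The divisor of `f ∏ t_j ^ n_j`. -/
noncomputable def dvG (D : Fin r → PrimeDivisor A)
    (hfin : ∀ f : Fb F Kb, f ≠ 0 → {v : PrimeDivisor A | v.ord f ≠ 0}.Finite) :
    (Fb F Kb)ˣ × Multiplicative (Fin r → ℤ) →* Multiplicative (Divisors A) where
  toFun p := Multiplicative.ofAdd (Finsupp.ofSupportFinite (dn D p.1 p.2.toAdd)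
    (dn_supp D hfin p.1 p.2.toAdd))
  map_one' := by
    apply Multiplicative.toAdd.injective
    ext v
    exact dn_one D v
  map_mul' p p' := by
    apply Multiplicative.toAdd.injective
    ext v
    exact dn_mul D p.1 p'.1 p.2.toAdd p'.2.toAdd v

end

theorem pf_UTO (hIMG : T_IMG) (hVAL : T_VAL) (hMNI : T_MNI) (hMLI : T_MLI) (hSGM : T_SGM) :
    T_UTO := by
  classical
  intro K L _ _ _ F Kb Ω X i₀ φ r t D hF hB hS hfin hsur hgen
  have inj : Function.Injective (Psi (F := F) (Kb := Kb) t) := by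
    rintro ⟨f, n⟩ ⟨f', n'⟩ h
    obtain ⟨h1, h2⟩ := hMNI K L F Kb r t hS.alg f f' n.toAdd n'.toAdd h
    exact Prod.ext h1 (Multiplicative.toAdd.injective h2)
  let E : Subgroup Lˣ := (Psi (F := F) (Kb := Kb) t).range
  let iso := MonoidHom.ofInjective inj
  let dv : E →* Multiplicative (Divisors (X.base Kb)) :=
    (dvG D hfin).comp iso.symm.toMonoidHom
  have hdv : ∀ (e : E) (f : (Fb F Kb)ˣ) (n : Fin r → ℤ), (e : Lˣ) = mon t f n →
      ∀ v, (dv e).toAdd v = dn D f n v := by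
    intro e f n he v
    have h1 : iso.symm e = (f, Multiplicative.ofAdd n) := by
      rw [MulEquiv.symm_apply_eq]
      apply Subtype.ext
      rw [he]
      rfl
    change (dvG D hfin (iso.symm e)).toAdd v = _
    rw [h1]
    rfl
  have hrep : ∀ e : Lˣ, e ∈ E → ∃ (f : (Fb F Kb)ˣ) (n : Fin r → ℤ), e = mon t f n := by
    rintro e ⟨p, rfl⟩
    exact ⟨p.1, p.2.toAdd, rfl⟩
  have hin : ∀ (f : (Fb F Kb)ˣ) (n : Fin r → ℤ), mon t f n ∈ E := fun f n =>
    ⟨(f, Multiplicative.ofAdd n), rfl⟩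
  have hmk : ∀ (f : Lˣ) (h : (f : L) ∈ Fb F Kb), ∃ u : (Fb F Kb)ˣ, (u : Fb F Kb) = ⟨f, h⟩ ∧
      f = mon t u 0 := by
    intro f h
    refine ⟨Units.mk0 ⟨f, h⟩ (fun h0 => f.ne_zero (congrArg Subtype.val h0)), rfl, ?_⟩
    apply Units.ext
    simp [mon]
  have hmon0 : ∀ u : (Fb F Kb)ˣ, ((mon t u 0 : Lˣ) : L) = ((u : Fb F Kb) : L) := by
    intro u
    simp [mon]
  have hmem : ∀ f : Lˣ, (f : L) ∈ Fb F Kb → f ∈ E := by
    intro f h
    obtain ⟨u, -, hu⟩ := hmk f h
    rw [hu]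
    exact hin u 0
  have hgal : ∀ (σ : L ≃ₐ[Ω] L) (e : Lˣ), e ∈ E → Units.map (σ : L →* L) e ∈ E := by
    intro σ e he
    obtain ⟨f, n, rfl⟩ := hrep e he
    obtain ⟨f', n', h1, -⟩ := hSGM K L F Kb Ω X.n (X.base Kb) i₀ φ r t D hB hS σ f n
    rw [h1]
    exact hin f' n'
  have hfun : ∀ (e : E) (h : ((e : Lˣ) : L) ∈ Fb F Kb) (v : PrimeDivisor (X.base Kb)),
      (dv e).toAdd v = v.ord ⟨_, h⟩ := by
    intro e h v
    obtain ⟨u, hu1, hu2⟩ := hmk (e : Lˣ) h
    rw [hdv e u 0 hu2 v]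
    unfold dn
    rw [hu1]
    simp
  have hker : ∀ e : E, dv e = 1 → ((e : Lˣ) : L) ∈ Kb := by
    intro e he
    obtain ⟨f, n, h1⟩ := hrep (e : Lˣ) e.2
    have h2 : ∀ v, dn D f n v = 0 := by
      intro v
      rw [← hdv e f n h1 v, he]
      rfl
    obtain ⟨h3, c, hc⟩ := hS.ker f n h2
    rw [h1, h3, hmon0, hc]
    exact c.2
  have hsur' : Function.Surjective dv := by
    intro d
    obtain ⟨d, rfl⟩ := Multiplicative.ofAdd.surjective d
    induction d using Finsupp.induction_linear with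
    | zero => exact ⟨1, map_one dv⟩
    | add d d' h h' =>
      obtain ⟨e, he⟩ := h
      obtain ⟨e', he'⟩ := h'
      exact ⟨e * e', by rw [map_mul, he, he', ofAdd_add]⟩
    | single v k =>
      obtain ⟨f, n, h⟩ := hsur v
      refine ⟨(⟨mon t f n, hin f n⟩ : E) ^ k, ?_⟩
      have h1 : dv ⟨mon t f n, hin f n⟩ = Multiplicative.ofAdd (Finsupp.single v 1) := by
        apply Multiplicative.toAdd.injective
        ext v'
        rw [hdv _ f n rfl v', ← h v']
        unfold dl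
        rw [toAdd_ofAdd, Finsupp.single_apply]
        by_cases hv : v' = v
        · rw [if_pos hv, if_pos hv.symm]
        · rw [if_neg hv, if_neg (fun h0 => hv h0.symm)]
      rw [map_zpow, h1, ← ofAdd_zsmul, Finsupp.smul_single, smul_eq_mul, mul_one]
  have hdgal : ∀ (σ : L ≃ₐ[Ω] L) (v v' : PrimeDivisor (X.base Kb)),
      (∀ x y : Fb F Kb, (y : L) = σ x → v'.ord y = v.ord x) →
      ∀ e e' : E, ((e' : Lˣ) : L) = σ ((e : Lˣ) : L) → (dv e').toAdd v' = (dv e).toAdd v := by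
    intro σ v v' hv e e' hee
    obtain ⟨f, n, h1⟩ := hrep (e : Lˣ) e.2
    obtain ⟨f', n', h2, h3, -⟩ := hSGM K L F Kb Ω X.n (X.base Kb) i₀ φ r t D hB hS σ f n
    have h4 : (e' : Lˣ) = mon t f' n' := by
      rw [← h2, ← h1]
      apply Units.ext
      rw [hee]
      rfl
    rw [hdv e f n h1 v, hdv e' f' n' h4 v', h3 v v' hv]
  have hind : ∀ s : Finset Lˣ, (∀ e ∈ s, e ∈ E) →
      (∀ e ∈ s, ∀ e' ∈ s, e ≠ e' → ((e / e' : Lˣ) : L) ∉ Fb F Kb) →
      LinearIndependent (Fb F Kb) (fun e : s => ((e : Lˣ) : L)) := by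
    intro s h1 h2
    exact hMLI K L F Kb r t hS.alg s (fun e he => hrep e (h1 e he)) h2
  have hgen' : IntermediateField.adjoin K ((fun e : Lˣ => (e : L)) '' (E : Set Lˣ)) = ⊤ := by
    have hE : ∀ e ∈ E, (e : L) ∈
        IntermediateField.adjoin K ((fun e : Lˣ => (e : L)) '' (E : Set Lˣ)) := fun e he =>
      IntermediateField.subset_adjoin K _ ⟨e, he, rfl⟩
    have hFb : ∀ x : Fb F Kb, (x : L) ∈
        IntermediateField.adjoin K ((fun e : Lˣ => (e : L)) '' (E : Set Lˣ)) := by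
      intro x
      by_cases hx : x = 0
      · rw [hx]
        exact zero_mem _
      · have := hE _ (hin (Units.mk0 x hx) 0)
        rw [hmon0] at this
        exact this
    rw [eq_top_iff]
    intro x htriv
    have hx : x ∈ IntermediateField.adjoin (Fb F Kb) (Set.range (fun j => (t j : L))) := by
      rw [hgen]
      trivial
    clear htriv
    induction hx using IntermediateField.adjoin_induction with
    | mem x hx =>
      obtain ⟨j, rfl⟩ := hx
      have h1 : t j = mon (F := F) (Kb := Kb) t 1 (Pi.single j 1) := by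
        unfold mon
        rw [map_one, one_mul, Finset.prod_eq_single j]
        · simp
        · intro j' _ hne
          rw [Pi.single_eq_of_ne hne, zpow_zero]
        · intro h0
          exact absurd (Finset.mem_univ _) h0
      have h2 := hE _ (hin 1 (Pi.single j 1))
      rw [← h1] at h2
      exact h2
    | algebraMap x => exact hFb x
    | add x y _ _ hx hy => exact add_mem hx hy
    | inv x _ hx => exact inv_mem hx
    | mul x y _ _ hx hy => exact mul_mem hx hy
  refine ⟨⟨E, hF, hmem, hgal, dv, hfun, hker, hsur', hdgal, hind, hgen'⟩, ?_⟩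
  intro e
  obtain ⟨f, n, h1⟩ := hrep (e : Lˣ) e.2
  exact ⟨f, n, h1, fun v => hdv e f n h1 v⟩

end Pool.Agent.H62.UTO
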