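import Pool.Agent.H17.UN.Tow

set_option autoImplicit false

open Polynomial
open Pool.Agent.H17.UN

namespace Pool.Agent.H62.UTO

section

variable {k F : Type} [Field k] [Field F] [Algebra k F] {n : ℕ} {A : Fin n → Subalgebra k F}
  (v : PrimeDivisor A)

theorem ord_one : v.ord 1 = 0 := by
  have := v.ord_mul 1 1 one_ne_zero one_ne_zero
  rw [mul_one] at this
  omega

theorem ord_inv {x : F} (hx : x ≠ 0) : v.ord x⁻¹ = -v.ord x := by
  have := v.ord_mul x x⁻¹ hx (inv_ne_zero hx)
  rw [mul_inv_cancel₀ hx, ord_one] at this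
  omega

theorem ord_div {x y : F} (hx : x ≠ 0) (hy : y ≠ 0) : v.ord (x / y) = v.ord x - v.ord y := by
  rw [div_eq_mul_inv, v.ord_mul x y⁻¹ hx (inv_ne_zero hy), ord_inv v hy]
  ring

theorem ord_const (c : k) : v.ord (algebraMap k F c) = 0 := by
  by_cases hc : c = 0
  · rw [hc, map_zero, v.ord_zero]
  obtain ⟨i, h1, -⟩ := v.centre
  have h2 := h1 _ ((A i).algebraMap_mem c)
  have h3 := h1 _ ((A i).algebraMap_mem c⁻¹)
  have hne : algebraMap k F c ≠ 0 := by
    rw [Ne, map_eq_zero]
    exact hc
  rw [map_inv₀, ord_inv v hne] at h3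
  omega

theorem ord_neg (x : F) : v.ord (-x) = v.ord x := by
  by_cases hx : x = 0
  · rw [hx, neg_zero]
  have h1 : -x = algebraMap k F (-1) * x := by rw [map_neg, map_one, neg_one_mul]
  rw [h1, v.ord_mul _ _ (by rw [map_neg, map_one]; exact neg_ne_zero.mpr one_ne_zero) hx,
    ord_const, zero_add]

theorem ord_add_of_lt {x y : F} (hx : x ≠ 0) (hy : y ≠ 0) (h : v.ord y < v.ord x) :
    v.ord (x + y) = v.ord y := by
  have hne : x + y ≠ 0 := by
    intro h0
    have : x = -y := eq_neg_of_add_eq_zero_left h0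
    rw [this, ord_neg] at h
    omega
  have h1 := v.ord_add x y hx hy hne
  have h2 := v.ord_add (x + y) (-x) hne (neg_ne_zero.mpr hx) (by
    rw [add_neg_cancel_comm]; exact hy)
  rw [add_neg_cancel_comm, ord_neg] at h2
  omega

theorem ord_pow {x : F} (hx : x ≠ 0) (m : ℕ) : v.ord (x ^ m) = m * v.ord x := by
  induction m with
  | zero => simp [ord_one]
  | succ m ih =>
    rw [pow_succ, v.ord_mul _ _ (pow_ne_zero m hx) hx, ih]
    push_cast
    ring

theorem ord_zpow {x : F} (hx : x ≠ 0) (m : ℤ) : v.ord (x ^ m) = m * v.ord x := by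
  cases m with
  | ofNat m => simp [ord_pow v hx]
  | negSucc m =>
    rw [zpow_negSucc, ord_inv v (pow_ne_zero _ hx), ord_pow v hx]
    push_cast
    rw [Int.negSucc_eq]
    ring

theorem pd_ext {v v' : PrimeDivisor A} (h : v.ord = v'.ord) : v = v' := by
  cases v; cases v'; subst h; rfl

end

section

variable {k F : Type} [Field k] [Field F] [Algebra k F] {P Q : k[X]} {s y z : F}

theorem tr_s (h : CB P Q s y z) : Transcendental k s := h.ind.transcendental 0

theorem sub_ne (h : CB P Q s y z) (a : k) : s - algebraMap k F a ≠ 0 := by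
  intro h0
  have : s = algebraMap k F a := sub_eq_zero.mp h0
  refine tr_s h ?_
  rw [this]
  exact isAlgebraic_algebraMap _

theorem aeval_ne (h : CB P Q s y z) {f : k[X]} (hf : f ≠ 0) : aeval s f ≠ 0 := by
  intro h0
  exact hf ((transcendental_iff.mp (tr_s h)) f h0)

theorem s_ne (h : CB P Q s y z) : s ≠ 0 := by
  have := sub_ne h 0
  rwa [map_zero, sub_zero] at this

variable (v : PrimeDivisor (ch k s y z))

theorem sub_other (h : CB P Q s y z) {a a' : k} (ha : 0 < v.ord (s - algebraMap k F a))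
    (hne : a' ≠ a) : v.ord (s - algebraMap k F a') = 0 := by
  have h1 : s - algebraMap k F a' = (s - algebraMap k F a) + algebraMap k F (a - a') := by
    rw [map_sub]
    ring
  have h2 : algebraMap k F (a - a') ≠ 0 := by
    rw [Ne, map_eq_zero, sub_eq_zero]
    exact fun h => hne h.symm
  rw [h1, ord_add_of_lt v (sub_ne h a) h2 (by rw [ord_const]; exact ha), ord_const]

theorem sub_neg (h : CB P Q s y z) (hs : v.ord s < 0) (a : k) :
    v.ord (s - algebraMap k F a) = v.ord s := by
  by_cases ha : a = 0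
  · rw [ha, map_zero, sub_zero]
  have h1 : s - algebraMap k F a = algebraMap k F (-a) + s := by
    rw [map_neg]
    ring
  have h2 : algebraMap k F (-a) ≠ 0 := by
    rw [Ne, map_eq_zero, neg_eq_zero]
    exact ha
  rw [h1, ord_add_of_lt v h2 (s_ne h) (by rw [ord_const]; exact hs)]

theorem ord_s_nonneg (h : CB P Q s y z) {a : k} (ha : 0 < v.ord (s - algebraMap k F a)) :
    0 ≤ v.ord s := by
  by_contra hneg
  rw [sub_neg v h (by omega) a] at ha
  omega

theorem hor_s (hv : Hor v) : v.ord s = 0 := by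
  have := hv 0
  rwa [map_zero, sub_zero] at this

theorem prod_ord (h : CB P Q s y z) (m : Multiset k) :
    (m.map (fun a => s - algebraMap k F a)).prod ≠ 0 ∧
    v.ord (m.map (fun a => s - algebraMap k F a)).prod =
      (m.map (fun a => v.ord (s - algebraMap k F a))).sum := by
  induction m using Multiset.induction with
  | empty => simp [ord_one]
  | cons a m ih =>
    obtain ⟨h1, h2⟩ := ih
    rw [Multiset.map_cons, Multiset.prod_cons, Multiset.map_cons, Multiset.sum_cons]
    exact ⟨mul_ne_zero (sub_ne h a) h1, by rw [v.ord_mul _ _ (sub_ne h a) h1, h2]⟩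

theorem aeval_prod [IsAlgClosed k] (f : k[X]) : aeval s f =
    algebraMap k F f.leadingCoeff * (f.roots.map (fun a => s - algebraMap k F a)).prod := by
  have h1 := (IsAlgClosed.splits f).eq_prod_roots
  conv_lhs => rw [h1]
  rw [map_mul, aeval_C, map_multiset_prod, Multiset.map_map]
  congr 2
  apply Multiset.map_congr rfl
  intro a _
  simp

theorem ord_aeval [IsAlgClosed k] (h : CB P Q s y z) {f : k[X]} (hf : f ≠ 0) :
    v.ord (aeval s f) = (f.roots.map (fun a => v.ord (s - algebraMap k F a))).sum := by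
  obtain ⟨h1, h2⟩ := prod_ord v h f.roots
  rw [aeval_prod, v.ord_mul _ _ (by
    rw [Ne, map_eq_zero, leadingCoeff_eq_zero]; exact hf) h1, ord_const, zero_add, h2]

theorem hor_aeval [IsAlgClosed k] (h : CB P Q s y z) (hv : Hor v) {f : k[X]} (hf : f ≠ 0) :
    v.ord (aeval s f) = 0 := by
  rw [ord_aeval v h hf]
  apply Multiset.sum_eq_zero
  intro x hx
  obtain ⟨a, -, rfl⟩ := Multiset.mem_map.mp hx
  exact hv a

open Classical in
theorem ord_count [IsAlgClosed k] (h : CB P Q s y z) {x : k}
    (hx : v.ord (s - algebraMap k F x) = 1) {f : k[X]} (hf : f ≠ 0) :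
    v.ord (aeval s f) = (f.roots.count x : ℤ) := by
  rw [ord_aeval v h hf]
  generalize f.roots = m
  induction m using Multiset.induction with
  | empty => simp
  | cons a m ih =>
    rw [Multiset.map_cons, Multiset.sum_cons, ih, Multiset.count_cons]
    by_cases hax : x = a
    · rw [if_pos hax, ← hax, hx]
      push_cast
      ring
    · rw [if_neg hax, sub_other v h (by rw [hx]; exact one_pos) (fun h => hax h.symm)]
      push_cast
      ring

end

/-! ### The frame -/

section

variable {k F : Type} [Field k] [CharZero k] [Field F] [Algebra k F] {P Q : k[X]} {s y z : F}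
  {e r : Fin 5 → k} {ρ : k} {D : Fin 7 → PrimeDivisor (ch k s y z)}

theorem jc : ∀ j : Fin 7, (∃ i : Fin 5, j = Fin.castAdd 2 i) ∨ j = 5 ∨ j = 6 := by decide

theorem cop (h : CB P Q s y z) {a : k} (hP : P.eval a = 0) (hQ : Q.eval a = 0) : False := by
  have h1 : IsCoprime P Q := h.sep.isCoprime
  obtain ⟨u, w, huw⟩ := h1
  have := congrArg (eval a) huw
  simp [hP, hQ] at this

theorem cmp_root {v : PrimeDivisor (ch k s y z)} {a b : k} (hc : Cmp P Q a b v) :
    (P * Q).eval a = 0 := by
  rw [eval_mul]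
  rcases hc.2 with h1 | h1
  · rw [h1.1, mul_zero]
  · rw [h1.1, zero_mul]

theorem cmp_ne (h : CB P Q s y z) {v : PrimeDivisor (ch k s y z)} {a b : k}
    (hc : Cmp P Q a b v) : b ≠ 0 := by
  intro h0
  rcases hc.2 with h1 | h1
  · refine cop h ?_ h1.1
    rw [← h1.2.1, h0]
    ring
  · refine cop h h1.1 ?_
    rw [← h1.2.1, h0]
    ring

theorem inf_ne (h : CB P Q s y z) {v : PrimeDivisor (ch k s y z)} {b : k}
    (hc : CmpInf Q b v) : b ≠ 0 := by
  intro h0
  have h1 := hc.2.1
  rw [h0] at h1
  have h2 : Q.leadingCoeff = 0 := by rw [← h1]; ring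
  rw [leadingCoeff_eq_zero] at h2
  have := h.dQ
  rw [h2] at this
  simp at this

theorem hor_ne (hFr : Fr P Q e r ρ D) {v : PrimeDivisor (ch k s y z)} (hv : Hor v) (j : Fin 7) :
    v ≠ D j := by
  rintro rfl
  rcases jc j with ⟨i, rfl⟩ | rfl | rfl
  · have := (hFr.cmp i).1
    rw [hv (e i)] at this
    omega
  · have := hFr.pos.1
    rw [hor_s _ hv] at this
    omega
  · have := hFr.neg.1
    rw [hor_s _ hv] at this
    omega

end

end Pool.Agent.H62.UTO
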